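import Pool.Agent.TH838.PR.Jac

set_option autoImplicit false

/-!
Dynamical Mordell-Lang for linear recurrences with polynomial coefficients: the criterion.
-/

namespace Pool.Agent.TH838.PR

open MvPolynomial Pool.Agent.H936R2 Pool.Agent.H905R3.DML Pool.Agent.H905R3.DML.Core
  Pool.Agent.TH838.DS

section orbit

variable {d K r m m' : ℕ}

/-- value of the polynomial with coefficients `c` -/
noncomputable def vl {k : Type} [CommRing k] (c : Fin (m + 1) → ℤ) (t : k) : k :=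
  ∑ j, (c j : k) * t ^ (j : ℕ)

theorem eval_pl {k : Type} [CommRing k] (c : Fin (m + 1) → ℤ) (x : Ix d K r → k) :
    eval x (map (Int.castRingHom k) (pl c)) = vl c (x it) := by
  simp only [pl, vl, map_sum]
  refine Finset.sum_congr rfl fun j _ => ?_
  rw [map_mul, map_C, map_pow, map_X, map_mul, eval_C, map_pow, eval_X]
  rfl

theorem vl_map {k k' : Type} [CommRing k] [CommRing k'] (φ : k →+* k') (c : Fin (m + 1) → ℤ)
    (t : k) : φ (vl c t) = vl c (φ t) := by
  simp only [vl, map_sum, map_mul, map_intCast, map_pow]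

/-- the points of the orbit -/
noncomputable def pnt (l : ℂ) (b : Fin (m' + 1) → ℤ) (γ : Fin d → Fin K → ℂ)
    (s : Fin r → ℕ → ℂ) (n0 n : ℕ) : Ix d K r → ℂ
  | none => ((n0 + n : ℕ) : ℂ)
  | some none => l * ∏ k ∈ Finset.range n, vl b ((n0 + k : ℕ) : ℂ)
  | some (some (Sum.inl e)) => γ e.1 e.2
  | some (some (Sum.inr e)) =>
      l * (∏ k ∈ Finset.range n, vl b ((n0 + k : ℕ) : ℂ)) * s e.1 (n0 + n + e.2)

theorem orbit (l : ℂ) (a : Fin (m + 1) → ℤ) (b : Fin (m' + 1) → ℤ) (γ : Fin d → Fin K → ℂ)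
    (s : Fin r → ℕ → ℂ) (n0 : ℕ)
    (hrec : ∀ j n, n0 ≤ n → vl a (n : ℂ) * s j n +
      ∑ i : Fin d, (∑ k : Fin K, γ i k * (n : ℂ) ^ (k : ℕ)) * s j (n + i + 1) +
        vl b (n : ℂ) * s j (n + d + 1) = 0) (n : ℕ) :
    (cmap (F a b))^[n] (pnt l b γ s n0 0) = pnt l b γ s n0 n := by
  induction n with
  | zero => rfl
  | succ n ih =>
    rw [Function.iterate_succ_apply', ih]
    funext i
    rcases i with _ | _ | q | ⟨j, i⟩
    · simp only [cmap, F, map_add, map_X, map_one, eval_X, pnt]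
      push_cast
      ring
    · simp only [cmap, F, map_mul, map_X, eval_X]
      rw [eval_pl]
      simp only [pnt]
      rw [Finset.prod_range_succ]
      ring
    · simp only [cmap, F, map_X, eval_X, pnt]
    · refine Fin.lastCases ?_ ?_ i
      · simp only [cmap, F, yc, Fin.lastCases_last, map_neg, map_add, map_mul, map_X, map_sum,
          map_pow, eval_X]
        rw [eval_pl]
        simp only [pnt]
        have h := hrec j (n0 + n) (Nat.le_add_right _ _)
        rw [Finset.prod_range_succ]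
        simp only [Fin.val_zero, Fin.val_succ, Fin.val_last, add_zero]
        have e1 : n0 + (n + 1) + d = n0 + n + d + 1 := by ring
        rw [e1]
        have e2 : ∀ i' : Fin d, n0 + n + ((i' : ℕ) + 1) = n0 + n + i' + 1 := fun i' => by ring
        simp only [e2]
        have e3 : ∑ i' : Fin d, (∑ k : Fin K, γ i' k * ((n0 + n : ℕ) : ℂ) ^ (k : ℕ)) *
            (l * (∏ k ∈ Finset.range n, vl b ((n0 + k : ℕ) : ℂ)) * s j (n0 + n + i' + 1)) =
            (l * ∏ k ∈ Finset.range n, vl b ((n0 + k : ℕ) : ℂ)) *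
              ∑ i' : Fin d, (∑ k : Fin K, γ i' k * ((n0 + n : ℕ) : ℂ) ^ (k : ℕ)) *
                s j (n0 + n + i' + 1) := by
          rw [Finset.mul_sum]
          refine Finset.sum_congr rfl fun i' _ => ?_
          ring
        rw [e3]
        linear_combination (-(l * ∏ k ∈ Finset.range n, vl b ((n0 + k : ℕ) : ℂ))) * h
      · intro i'
        simp only [cmap, F, yc, Fin.lastCases_castSucc, map_mul, map_X, eval_X]
        rw [eval_pl]
        simp only [pnt]
        rw [Finset.prod_range_succ]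
        have e1 : n0 + n + (i'.succ : ℕ) = n0 + (n + 1) + (i'.castSucc : ℕ) := by
          simp only [Fin.val_succ, Fin.val_castSucc]
          ring
        rw [e1]
        ring

end orbit

/-! ### Homogenisation -/

section hom

variable {d K r : ℕ}

noncomputable def hm (G : MvPolynomial (Option (Fin r × Fin (d + 1))) ℂ) :
    MvPolynomial (Ix d K r) ℂ :=
  ∑ e ∈ G.support, C (coeff e G) * X it ^ (e none) *
    (∏ q : Fin r × Fin (d + 1), X (some (some (Sum.inr q))) ^ (e (some q))) *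
      X iz ^ (G.support.sup (fun e => ∑ q, e (some q)) - ∑ q, e (some q))

theorem eval_hm (G : MvPolynomial (Option (Fin r × Fin (d + 1))) ℂ) (x : Ix d K r → ℂ)
    (u : Fin r × Fin (d + 1) → ℂ) (hx : ∀ q, x (some (some (Sum.inr q))) = x iz * u q) :
    eval x (hm G) = x iz ^ (G.support.sup fun e => ∑ q, e (some q)) *
      eval (fun o => o.elim (x it) u) G := by
  have hG := eval_eq' (fun o => Option.elim o (x it) u) G
  rw [hG, Finset.mul_sum]
  simp only [hm, map_sum, map_mul, eval_C, map_pow, eval_X, map_prod]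
  refine Finset.sum_congr rfl fun e he => ?_
  rw [Fintype.prod_option]
  simp only [Option.elim]
  have h1 : ∏ q : Fin r × Fin (d + 1), x (some (some (Sum.inr q))) ^ (e (some q)) =
      x iz ^ (∑ q, e (some q)) * ∏ q, u q ^ (e (some q)) := by
    rw [← Finset.prod_pow_eq_pow_sum, ← Finset.prod_mul_distrib]
    refine Finset.prod_congr rfl fun q _ => ?_
    rw [hx, mul_pow]
  have h2 : ∑ q, e (some q) ≤ G.support.sup (fun e => ∑ q, e (some q)) :=
    Finset.le_sup (f := fun e : Option (Fin r × Fin (d + 1)) →₀ ℕ => ∑ q, e (some q)) he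
  have h3 : x iz ^ (G.support.sup fun e => ∑ q, e (some q)) =
      x iz ^ (∑ q, e (some q)) *
        x iz ^ (G.support.sup (fun e => ∑ q, e (some q)) - ∑ q, e (some q)) := by
    rw [← pow_add]
    congr 1
    omega
  rw [h1, h3]
  ring

end hom

/-! ### Integrality -/

theorem norm_le_one {p : ℕ} [hp : Fact p.Prime] {z : PadicAlgCl p} (hz : IsIntegral ℤ z) :
    ‖z‖ ≤ 1 := by
  obtain ⟨f, hf, h0⟩ := hz
  by_contra hcon
  push Not at hcon
  rw [Polynomial.eval₂_eq_sum_range, Finset.sum_range_succ, hf.coeff_natDegree] at h0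
  rw [map_one, one_mul] at h0
  have h1 : z ^ f.natDegree =
      -∑ i ∈ Finset.range f.natDegree, (algebraMap ℤ (PadicAlgCl p)) (f.coeff i) * z ^ i := by
    linear_combination h0
  rcases Nat.eq_zero_or_pos f.natDegree with h2 | h2
  · rw [h2, pow_zero, Finset.sum_range_zero, neg_zero] at h1
    exact one_ne_zero h1
  have h3 : ‖z ^ f.natDegree‖ ≤ ‖z‖ ^ (f.natDegree - 1) := by
    rw [h1, norm_neg]
    apply IsUltrametricDist.norm_sum_le_of_forall_le_of_nonneg (by positivity)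
    intro i hi
    rw [Finset.mem_range] at hi
    rw [norm_mul, norm_pow]
    have h4 : ‖(algebraMap ℤ (PadicAlgCl p)) (f.coeff i)‖ ≤ 1 := by
      have h5 : (algebraMap ℤ (PadicAlgCl p)) (f.coeff i) =
          ((((f.coeff i : ℤ) : unitBall (PadicAlgCl p)) : PadicAlgCl p)) := by
        simp
      rw [h5]
      exact (((f.coeff i : ℤ) : unitBall (PadicAlgCl p))).2
    calc ‖(algebraMap ℤ (PadicAlgCl p)) (f.coeff i)‖ * ‖z‖ ^ i ≤ 1 * ‖z‖ ^ (f.natDegree - 1) :=
          mul_le_mul h4 (pow_le_pow_right₀ hcon.le (by omega)) (by positivity) (by norm_num)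
      _ = _ := one_mul _
  rw [norm_pow] at h3
  have h4 : ‖z‖ ^ (f.natDegree - 1) < ‖z‖ ^ f.natDegree :=
    pow_lt_pow_right₀ hcon (by omega)
  linarith

theorem exists_scale {p : ℕ} [hp : Fact p.Prime] (τ : ℂ →+* PadicAlgCl p) {J : Type} [Fintype J]
    (u : J → ℂ) : ∃ l : ℂ, l ≠ 0 ∧ ‖τ l‖ ≤ 1 ∧ ∀ j, ‖τ (l * u j)‖ ≤ 1 := by
  have hp1 : ‖τ ((p : ℕ) : ℂ)‖ < 1 := by
    rw [map_natCast]
    have h3 : ((algebraMap ℚ_[p] (PadicAlgCl p)) (p : ℚ_[p])) = ((p : ℕ) : PadicAlgCl p) :=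
      map_natCast _ _
    rw [← h3, show (algebraMap ℚ_[p] (PadicAlgCl p)) (p : ℚ_[p]) =
      (((p : ℚ_[p]) : PadicAlgCl p)) from rfl, PadicAlgCl.norm_extends]
    exact Padic.norm_p_lt_one
  have hB : ∃ B : ℝ, 1 ≤ B ∧ ∀ j, ‖τ (u j)‖ ≤ B := by
    refine ⟨1 + ∑ j, ‖τ (u j)‖, ?_, fun j => ?_⟩
    · have : 0 ≤ ∑ j, ‖τ (u j)‖ := Finset.sum_nonneg fun _ _ => norm_nonneg _
      linarith
    · have := Finset.single_le_sum (f := fun j => ‖τ (u j)‖) (fun _ _ => norm_nonneg _)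
        (Finset.mem_univ j)
      linarith
  obtain ⟨B, hB1, hB⟩ := hB
  obtain ⟨N, hN⟩ := exists_pow_lt_of_lt_one (show (0 : ℝ) < 1 / B by positivity) hp1
  refine ⟨((p : ℕ) : ℂ) ^ N, pow_ne_zero _ (by exact_mod_cast hp.out.ne_zero), ?_, fun j => ?_⟩
  · rw [map_pow, norm_pow]
    exact pow_le_one₀ (norm_nonneg _) hp1.le
  · rw [map_mul, map_pow, norm_mul, norm_pow]
    calc ‖τ ((p : ℕ) : ℂ)‖ ^ N * ‖τ (u j)‖ ≤ (1 / B) * B :=
          mul_le_mul hN.le (hB j) (norm_nonneg _) (by positivity)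
      _ = 1 := by field_simp

/-! ### The criterion -/

theorem shift_set (Z : ℕ → Prop) (n0 : ℕ) (T : Finset (ℕ × ℕ))
    (hT : {k : ℕ | Z (n0 + k)} = {k : ℕ | ∃ q ∈ T, ∃ m : ℕ, k = q.1 * m + q.2}) :
    ∃ T' : Finset (ℕ × ℕ), {k : ℕ | Z k} = {k : ℕ | ∃ q ∈ T', ∃ m : ℕ, k = q.1 * m + q.2} := by
  classical
  have hT' : ∀ k, Z (n0 + k) ↔ ∃ q ∈ T, ∃ m : ℕ, k = q.1 * m + q.2 := by
    intro k
    have h1 : k ∈ {k : ℕ | Z (n0 + k)} ↔ k ∈ {k : ℕ | ∃ q ∈ T, ∃ m : ℕ, k = q.1 * m + q.2} := by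
      rw [hT]
    exact h1
  refine ⟨T.image (fun q => (q.1, q.2 + n0)) ∪
    ((Finset.range n0).filter fun n => Z n).image (fun n => (0, n)), ?_⟩
  ext n
  simp only [Set.mem_ofPred_eq, Finset.mem_union, Finset.mem_image, Finset.mem_filter,
    Finset.mem_range]
  constructor
  · intro hn
    rcases Nat.lt_or_ge n n0 with hnm | hnm
    · exact ⟨(0, n), Or.inr ⟨n, ⟨hnm, hn⟩, rfl⟩, 0, by simp⟩
    · obtain ⟨k, rfl⟩ : ∃ k, n = n0 + k := ⟨n - n0, by omega⟩
      obtain ⟨q, hq, c, hc⟩ := (hT' k).1 hn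
      refine ⟨(q.1, q.2 + n0), Or.inl ⟨q, hq, rfl⟩, c, ?_⟩
      simp only
      omega
  · rintro ⟨q, hq | hq, c, hc⟩
    · obtain ⟨q', hq', rfl⟩ := hq
      simp only at hc
      have h1 : n = n0 + (q'.1 * c + q'.2) := by omega
      rw [h1]
      exact (hT' _).2 ⟨q', hq', c, rfl⟩
    · obtain ⟨n', ⟨_, hn'⟩, rfl⟩ := hq
      simp only [zero_mul, zero_add] at hc
      rw [hc]
      exact hn'

theorem vl_ne {p : ℕ} [hp : Fact p.Prime] {m : ℕ} {c : Fin (m + 1) → ℤ}
    (hc : ∀ x : ZMod p, vl c x ≠ 0) {k : Type} [Field k] [CharP k p] (n : ℕ) :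
    vl c (n : k) ≠ 0 := by
  let φ : ZMod p →+* k := ZMod.castHom (dvd_refl p) k
  have h1 := hc (n : ZMod p)
  intro h
  apply h1
  apply φ.injective
  rw [vl_map, map_natCast, map_zero]
  exact h

theorem vl_ne_C {p : ℕ} [hp : Fact p.Prime] {m : ℕ} {c : Fin (m + 1) → ℤ}
    (hc : ∀ x : ZMod p, vl c x ≠ 0) (n : ℕ) : vl c (n : ℂ) ≠ 0 := by
  intro h
  have h1 : ((vl c (n : ℤ) : ℤ) : ℂ) = vl c (n : ℂ) := by
    have := vl_map (Int.castRingHom ℂ) c (n : ℤ)
    simpa using this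
  have h2 : vl c (n : ℤ) = 0 := by
    rw [h] at h1
    exact_mod_cast h1
  apply hc (n : ZMod p)
  have h3 : ((vl c (n : ℤ) : ℤ) : ZMod p) = vl c (n : ZMod p) := by
    have := vl_map (Int.castRingHom (ZMod p)) c (n : ℤ)
    simpa using this
  rw [← h3, h2, Int.cast_zero]

theorem criterion {p : ℕ} [hp : Fact p.Prime] {d K r m m' : ℕ} (a : Fin (m + 1) → ℤ)
    (b : Fin (m' + 1) → ℤ) (ha : ∀ x : ZMod p, vl a x ≠ 0) (hb : ∀ x : ZMod p, vl b x ≠ 0)
    (γ : Fin d → Fin K → ℂ) (hγ : ∀ i k, IsIntegral ℤ (γ i k)) (s : Fin r → ℕ → ℂ) (n0 : ℕ)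
    (hrec : ∀ j n, n0 ≤ n → vl a (n : ℂ) * s j n +
      ∑ i : Fin d, (∑ k : Fin K, γ i k * (n : ℂ) ^ (k : ℕ)) * s j (n + i + 1) +
        vl b (n : ℂ) * s j (n + d + 1) = 0)
    (G : MvPolynomial (Option (Fin r × Fin (d + 1))) ℂ) :
    ∃ T : Finset (ℕ × ℕ), {n : ℕ | eval (fun o => o.elim (n : ℂ) fun e => s e.1 (n + e.2)) G = 0} =
      {k : ℕ | ∃ q ∈ T, ∃ t : ℕ, k = q.1 * t + q.2} := by
  classical
  obtain ⟨τ⟩ := exists_embedding p
  haveI := charP_resF p
  obtain ⟨l, hl0, hl1, hl⟩ := exists_scale τ (fun e : Fin r × Fin (d + 1) => s e.1 (n0 + e.2))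
  have hα : ∀ i, ‖τ (pnt l b γ s n0 0 i)‖ ≤ 1 := by
    intro i
    rcases i with _ | _ | q | q
    · simp only [pnt, add_zero, map_natCast]
      exact (((n0 : ℕ) : unitBall (PadicAlgCl p))).2
    · simp only [pnt, Finset.range_zero, Finset.prod_empty, mul_one]
      exact hl1
    · simp only [pnt]
      exact norm_le_one (map_isIntegral_int τ (hγ q.1 q.2))
    · simp only [pnt, Finset.range_zero, Finset.prod_empty, mul_one, add_zero]
      exact hl q
  have hdml : DMLAt (F a b) (pnt l b γ s n0 0) := by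
    refine dml_core (F a b) (pnt l b γ s n0 0) τ (fun i => ⟨_, hα i⟩) (fun i => rfl) 0 ?_
    intro n _
    apply isUnit_of_res_ne_zero
    set FO := overR (unitBall (PadicAlgCl p)) (F a b) with hFO
    set w : Ix d K r → unitBall (PadicAlgCl p) :=
      (pt FO)^[n] (fun i => ⟨τ (pnt l b γ s n0 0 i), hα i⟩) with hw
    have h5 := jac_map (res (PadicAlgCl p)) FO w
    have h6 : (fun q => map (res (PadicAlgCl p)) (FO q)) = overR (ResF (PadicAlgCl p)) (F a b) :=
      overR_map _ _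
    rw [h6] at h5
    rw [RingHom.map_det, ← h5]
    have ht : ∀ k : ℕ, (pt FO)^[k] (fun i => (⟨τ (pnt l b γ s n0 0 i), hα i⟩ :
        unitBall (PadicAlgCl p))) it = ((n0 + k : ℕ) : unitBall (PadicAlgCl p)) := by
      intro k
      induction k with
      | zero =>
        apply Subtype.ext
        simp [pnt]
      | succ k ih =>
        rw [Function.iterate_succ_apply']
        simp only [pt, hFO, overR, F, map_add, map_X, map_one, eval_X]
        simp only [pt, hFO, overR] at ih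
        rw [ih]
        push_cast
        ring
    have htn : res (PadicAlgCl p) (w it) = ((n0 + n : ℕ) : ResF (PadicAlgCl p)) := by
      rw [hw, ht n, map_natCast]
    apply det_ne
    · rw [eval_pl, htn]
      exact vl_ne ha _
    · rw [eval_pl, htn]
      exact vl_ne hb _
  obtain ⟨T, hT⟩ := hdml {hm G}
  apply shift_set (fun n => eval (fun o => o.elim (n : ℂ) fun e => s e.1 (n + e.2)) G = 0) n0 T
  rw [← hT]
  ext n
  simp only [Set.mem_ofPred_eq, Set.mem_singleton_iff, forall_eq]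
  rw [orbit l a b γ s n0 hrec n, eval_hm G (pnt l b γ s n0 n) (fun q => s q.1 (n0 + n + q.2))
    (fun q => rfl)]
  have hz : pnt l b γ s n0 n iz ≠ 0 := by
    simp only [pnt]
    exact mul_ne_zero hl0 (Finset.prod_ne_zero_iff.2 fun k _ => vl_ne_C hb _)
  have hit : pnt l b γ s n0 n it = ((n0 + n : ℕ) : ℂ) := rfl
  rw [hit]
  constructor
  · intro h
    rw [h, mul_zero]
  · intro h
    exact (mul_eq_zero.1 h).resolve_left (pow_ne_zero _ hz)

end Pool.Agent.TH838.PR
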