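import Pool.Agent.TH838.PR.Core

set_option autoImplicit false

/-!
Embeddings of `ℂ` into the algebraic closure of `ℚ_p` which map given numbers to integral elements.
-/

namespace Pool.Agent.TH838.PR

open Pool.Agent.H936R2 Pool.Agent.H905R3.DML Pool.Agent.H905R3.DML.Core

theorem indep_scale {ι M : Type} [Field M] [Algebra ℚ M] {x : ι → M}
    (hx : AlgebraicIndependent ℚ x) (c : ℚ) (hc : c ≠ 0) :
    AlgebraicIndependent ℚ (fun i => algebraMap ℚ M c * x i) := by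
  rw [algebraicIndependent_iff_injective_aeval] at hx ⊢
  have h1 : (MvPolynomial.aeval (fun i => algebraMap ℚ M c * x i) : MvPolynomial ι ℚ →ₐ[ℚ] M) =
      (MvPolynomial.aeval x).comp
        (MvPolynomial.aeval (fun i => MvPolynomial.C c * MvPolynomial.X i)) := by
    apply MvPolynomial.algHom_ext
    intro i
    simp
  rw [h1, AlgHom.coe_comp]
  refine hx.comp ?_
  apply Function.LeftInverse.injective
    (g := (MvPolynomial.aeval (fun i => MvPolynomial.C c⁻¹ * MvPolynomial.X i) :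
      MvPolynomial ι ℚ →ₐ[ℚ] MvPolynomial ι ℚ))
  intro f
  have h2 : ((MvPolynomial.aeval (fun i => MvPolynomial.C c⁻¹ * MvPolynomial.X i)).comp
      (MvPolynomial.aeval (fun i => MvPolynomial.C c * MvPolynomial.X i)) :
        MvPolynomial ι ℚ →ₐ[ℚ] MvPolynomial ι ℚ) = AlgHom.id ℚ _ := by
    apply MvPolynomial.algHom_ext
    intro i
    simp only [AlgHom.comp_apply, MvPolynomial.aeval_X, map_mul, MvPolynomial.aeval_C,
      AlgHom.id_apply, MvPolynomial.algebraMap_eq]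
    rw [← mul_assoc, ← MvPolynomial.C_mul, mul_inv_cancel₀ hc, MvPolynomial.C_1, one_mul]
  exact DFunLike.congr_fun h2 f

/-- algebraically independent numbers can be mapped to integral elements -/
theorem emb_indep (p : ℕ) [hp : Fact p.Prime] {t : ℕ} (y : Fin t → ℂ)
    (hy : AlgebraicIndependent ℚ y) : ∃ τ : ℂ →+* PadicAlgCl p, ∀ j, ‖τ (y j)‖ ≤ 1 := by
  classical
  obtain ⟨τ₀⟩ := exists_embedding p
  have hp1 : ‖((p : ℕ) : PadicAlgCl p)‖ < 1 := by
    have h3 : ((algebraMap ℚ_[p] (PadicAlgCl p)) (p : ℚ_[p])) = ((p : ℕ) : PadicAlgCl p) :=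
      map_natCast _ _
    rw [← h3, show (algebraMap ℚ_[p] (PadicAlgCl p)) (p : ℚ_[p]) =
      (((p : ℚ_[p]) : PadicAlgCl p)) from rfl, PadicAlgCl.norm_extends]
    exact Padic.norm_p_lt_one
  obtain ⟨N, hN⟩ : ∃ N : ℕ, ∀ j, ‖((p : ℕ) : PadicAlgCl p) ^ N * τ₀ (y j)‖ ≤ 1 := by
    have hB : ∃ B : ℝ, 1 ≤ B ∧ ∀ j, ‖τ₀ (y j)‖ ≤ B := by
      refine ⟨1 + ∑ j, ‖τ₀ (y j)‖, ?_, fun j => ?_⟩
      · have : 0 ≤ ∑ j, ‖τ₀ (y j)‖ := Finset.sum_nonneg fun _ _ => norm_nonneg _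
        linarith
      · have := Finset.single_le_sum (f := fun j => ‖τ₀ (y j)‖) (fun _ _ => norm_nonneg _)
          (Finset.mem_univ j)
        linarith
    obtain ⟨B, hB1, hB⟩ := hB
    obtain ⟨N, hN⟩ := exists_pow_lt_of_lt_one (show (0 : ℝ) < 1 / B by positivity) hp1
    refine ⟨N, fun j => ?_⟩
    rw [norm_mul, norm_pow]
    calc ‖((p : ℕ) : PadicAlgCl p)‖ ^ N * ‖τ₀ (y j)‖ ≤ (1 / B) * B :=
          mul_le_mul hN.le (hB j) (norm_nonneg _) (by positivity)
      _ = 1 := by field_simp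
  obtain ⟨s, hs0, hs⟩ := exists_isTranscendenceBasis_superset (R := ℚ) (s := Set.range y)
    hy.to_subtype_range
  -- the new images of the basis
  let σ₀ : ℂ →ₐ[ℚ] PadicAlgCl p := τ₀.toRatAlgHom
  have hw0 : AlgebraicIndependent ℚ (fun b : s => σ₀ (b : ℂ)) :=
    hs.1.map' (f := σ₀) σ₀.toRingHom.injective
  have hw : AlgebraicIndependent ℚ
      (fun b : s => algebraMap ℚ (PadicAlgCl p) ((p : ℚ) ^ N) * σ₀ (b : ℂ)) :=
    indep_scale hw0 _ (pow_ne_zero _ (by exact_mod_cast hp.out.ne_zero))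
  let A := Algebra.adjoin ℚ (Set.range ((↑) : s → ℂ))
  let ψ : A →ₐ[ℚ] PadicAlgCl p := (MvPolynomial.aeval
    (fun b : s => algebraMap ℚ (PadicAlgCl p) ((p : ℚ) ^ N) * σ₀ (b : ℂ))).comp
    (hs.1.aevalEquiv.symm : A →ₐ[ℚ] MvPolynomial s ℚ)
  have hψ : Function.Injective ψ := by
    rw [algebraicIndependent_iff_injective_aeval] at hw
    exact hw.comp hs.1.aevalEquiv.symm.injective
  let _ : Algebra A (PadicAlgCl p) := ψ.toRingHom.toAlgebra
  have hf : FaithfulSMul A (PadicAlgCl p) :=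
    (faithfulSMul_iff_algebraMap_injective A (PadicAlgCl p)).2 hψ
  have halg : Algebra.IsAlgebraic A ℂ := hs.isAlgebraic
  let τ : ℂ →ₐ[A] PadicAlgCl p := IsAlgClosed.lift
  refine ⟨τ.toRingHom, fun j => ?_⟩
  have hmem : y j ∈ s := hs0 ⟨j, rfl⟩
  have e0 : ((hs.1.aevalEquiv (MvPolynomial.X (⟨y j, hmem⟩ : s)) : A) : ℂ) = y j := by
    simp
  have e1 : algebraMap A ℂ (hs.1.aevalEquiv (MvPolynomial.X (⟨y j, hmem⟩ : s))) = y j := e0
  have e2 : τ (y j) = ψ (hs.1.aevalEquiv (MvPolynomial.X (⟨y j, hmem⟩ : s))) :=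
    (congrArg τ e1).symm.trans (τ.commutes _)
  have e3 : ψ (hs.1.aevalEquiv (MvPolynomial.X (⟨y j, hmem⟩ : s))) =
      algebraMap ℚ (PadicAlgCl p) ((p : ℚ) ^ N) * σ₀ (y j) := by
    change (MvPolynomial.aeval
      (fun b : s => algebraMap ℚ (PadicAlgCl p) ((p : ℚ) ^ N) * σ₀ (b : ℂ)))
        (hs.1.aevalEquiv.symm (hs.1.aevalEquiv (MvPolynomial.X (⟨y j, hmem⟩ : s)))) = _
    rw [AlgEquiv.symm_apply_apply, MvPolynomial.aeval_X]
  change ‖τ (y j)‖ ≤ 1
  rw [e2, e3]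
  have e4 : algebraMap ℚ (PadicAlgCl p) ((p : ℚ) ^ N) = ((p : ℕ) : PadicAlgCl p) ^ N := by
    rw [map_pow, map_natCast]
  rw [e4]
  exact hN j

theorem norm_le_one_of_monic {p : ℕ} [hp : Fact p.Prime] {z : PadicAlgCl p}
    (f : Polynomial (PadicAlgCl p)) (hf : f.Monic) (hc : ∀ i, ‖f.coeff i‖ ≤ 1)
    (h0 : f.eval z = 0) : ‖z‖ ≤ 1 := by
  by_contra hcon
  push Not at hcon
  rw [Polynomial.eval_eq_sum_range, Finset.sum_range_succ, hf.coeff_natDegree, one_mul] at h0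
  have h1 : z ^ f.natDegree = -∑ i ∈ Finset.range f.natDegree, f.coeff i * z ^ i := by
    linear_combination h0
  rcases Nat.eq_zero_or_pos f.natDegree with h2 | h2
  · rw [h2, pow_zero, Finset.sum_range_zero, neg_zero] at h1
    exact one_ne_zero h1
  have h3 : ‖z ^ f.natDegree‖ ≤ ‖z‖ ^ (f.natDegree - 1) := by
    rw [h1, norm_neg]
    apply IsUltrametricDist.norm_sum_le_of_forall_le_of_nonneg (by positivity)
    intro i hi
    rw [Finset.mem_range] at hi
    rw [norm_mul, norm_pow]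
    calc ‖f.coeff i‖ * ‖z‖ ^ i ≤ 1 * ‖z‖ ^ (f.natDegree - 1) :=
          mul_le_mul (hc i) (pow_le_pow_right₀ hcon.le (by omega)) (by positivity) (by norm_num)
      _ = _ := one_mul _
  rw [norm_pow] at h3
  have h4 : ‖z‖ ^ (f.natDegree - 1) < ‖z‖ ^ f.natDegree :=
    pow_lt_pow_right₀ hcon (by omega)
  linarith

theorem norm_rat_le_one {p : ℕ} [hp : Fact p.Prime] (q : ℚ) (hq : ¬ p ∣ q.den) :
    ‖((algebraMap ℚ (PadicAlgCl p)) q)‖ ≤ 1 := by
  have h1 : (algebraMap ℚ (PadicAlgCl p)) q = (((q : ℚ_[p]) : PadicAlgCl p)) := by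
    rw [eq_ratCast, map_ratCast]
  rw [h1, PadicAlgCl.norm_extends]
  exact Padic.norm_rat_le_one hq

theorem den_bound {t : ℕ} (f : Polynomial (MvPolynomial (Fin t) ℚ)) :
    ∃ N : ℕ, ∀ i e, (MvPolynomial.coeff e (f.coeff i)).den ≤ N := by
  classical
  refine ⟨1 + f.support.sup (fun i => (f.coeff i).support.sup
    (fun e => (MvPolynomial.coeff e (f.coeff i)).den)), fun i e => ?_⟩
  by_cases hi : i ∈ f.support
  · by_cases he : e ∈ (f.coeff i).support
    · have h1 := Finset.le_sup (f := fun e => (MvPolynomial.coeff e (f.coeff i)).den) he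
      have h2 := Finset.le_sup (f := fun i => (f.coeff i).support.sup
        (fun e => (MvPolynomial.coeff e (f.coeff i)).den)) hi
      exact (h1.trans h2).trans (Nat.le_add_left _ _)
    · have h1 : (MvPolynomial.coeff e (f.coeff i)).den = 1 := by
        rw [MvPolynomial.notMem_support_iff.1 he]
        rfl
      exact h1.le.trans (Nat.le_add_right _ _)
  · have h1 : (MvPolynomial.coeff e (f.coeff i)).den = 1 := by
      rw [Polynomial.notMem_support_iff.1 hi]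
      rfl
    exact h1.le.trans (Nat.le_add_right _ _)

theorem norm_aeval_le {p : ℕ} [hp : Fact p.Prime] {t : ℕ} (w : Fin t → PadicAlgCl p)
    (hw : ∀ j, ‖w j‖ ≤ 1) (c : MvPolynomial (Fin t) ℚ)
    (hc : ∀ e, ¬ p ∣ (MvPolynomial.coeff e c).den) : ‖MvPolynomial.aeval w c‖ ≤ 1 := by
  rw [MvPolynomial.aeval_eq_eval₂Hom, MvPolynomial.coe_eval₂Hom, MvPolynomial.eval₂_eq']
  apply IsUltrametricDist.norm_sum_le_of_forall_le_of_nonneg zero_le_one
  intro e _
  rw [norm_mul, norm_prod]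
  refine mul_le_one₀ (norm_rat_le_one _ (hc e)) (by positivity) ?_
  apply Finset.prod_le_one
  · intro j _
    positivity
  · intro j _
    rw [norm_pow]
    exact pow_le_one₀ (norm_nonneg _) (hw j)

/-- For all large primes `p` finitely many given complex numbers can be mapped to integral elements
of the algebraic closure of `ℚ_p`. -/
theorem emb_finite (s : Finset ℂ) : ∃ N : ℕ, ∀ (p : ℕ) [Fact p.Prime], N < p →
    ∃ τ : ℂ →+* PadicAlgCl p, ∀ x ∈ s, ‖τ x‖ ≤ 1 := by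
  classical
  let R := Algebra.adjoin ℚ (s : Set ℂ)
  have hfg : Algebra.FiniteType ℚ R :=
    (Subalgebra.fg_iff_finiteType _).1 (Subalgebra.fg_adjoin_finset s)
  obtain ⟨t, g, hinj, hint⟩ := exists_integral_inj_algHom_of_fg ℚ R
  have hmem : ∀ x ∈ s, x ∈ R := fun x hx => Algebra.subset_adjoin hx
  have h1 : ∀ x : s, ∃ f : Polynomial (MvPolynomial (Fin t) ℚ), f.Monic ∧
      Polynomial.eval₂ g.toRingHom (⟨x, hmem x x.2⟩ : R) f = 0 := fun x => hint _
  choose f hf h0 using h1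
  choose N hN using fun x : s => den_bound (f x)
  refine ⟨Finset.univ.sup N, fun p hp hlt => ?_⟩
  let y : Fin t → ℂ := fun j => ((g (MvPolynomial.X j) : R) : ℂ)
  have hy1 : (MvPolynomial.aeval y : MvPolynomial (Fin t) ℚ →ₐ[ℚ] ℂ) = R.val.comp g := by
    apply MvPolynomial.algHom_ext
    intro i
    simp [y]
  have hy : AlgebraicIndependent ℚ y := by
    rw [algebraicIndependent_iff_injective_aeval, hy1, AlgHom.coe_comp]
    exact Subtype.val_injective.comp hinj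
  obtain ⟨τ, hτ⟩ := emb_indep p y hy
  refine ⟨τ, fun x hx => ?_⟩
  have h2 := congrArg (fun z : R => τ (z : ℂ)) (h0 ⟨x, hx⟩)
  let ρ : R →+* PadicAlgCl p := τ.comp R.val.toRingHom
  have h3 : ρ (Polynomial.eval₂ g.toRingHom (⟨x, hmem x hx⟩ : R) (f ⟨x, hx⟩)) = 0 := by
    rw [h0 ⟨x, hx⟩, map_zero]
  rw [Polynomial.hom_eval₂] at h3
  have h4 : ρ (⟨x, hmem x hx⟩ : R) = τ x := rfl
  rw [h4] at h3
  refine norm_le_one_of_monic ((f ⟨x, hx⟩).map (ρ.comp g.toRingHom)) ((hf _).map _) (fun i => ?_)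
    (by rw [Polynomial.eval_map]; exact h3)
  rw [Polynomial.coeff_map]
  have h5 : ∀ c : MvPolynomial (Fin t) ℚ, (ρ.comp g.toRingHom) c =
      MvPolynomial.aeval (fun j => τ (y j)) c := by
    intro c
    have h6 : (ρ.comp g.toRingHom).toRatAlgHom =
        (MvPolynomial.aeval (fun j => τ (y j)) : MvPolynomial (Fin t) ℚ →ₐ[ℚ] PadicAlgCl p) := by
      apply MvPolynomial.algHom_ext
      intro j
      rw [MvPolynomial.aeval_X]
      rfl
    exact DFunLike.congr_fun h6 c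
  rw [h5]
  refine norm_aeval_le _ hτ _ fun e hdvd => ?_
  have h7 := Nat.le_of_dvd (Rat.den_pos _) hdvd
  have h8 := hN ⟨x, hx⟩ i e
  have h9 := Finset.le_sup (f := N) (Finset.mem_univ (⟨x, hx⟩ : s))
  omega

end Pool.Agent.TH838.PR
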