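import Pool.Agent.TH838.DS.All

set_option autoImplicit false

/-!
Linear recurrences with polynomial coefficients as polynomial self-maps of an affine space.
-/

namespace Pool.Agent.TH838.PR

open MvPolynomial Pool.Agent.H936R2 Pool.Agent.H905R3.DML Pool.Agent.H905R3.DML.Core

/-- coordinates: time, scale, constants, sequences -/
abbrev Ix (d K r : ℕ) : Type := Option (Option ((Fin d × Fin K) ⊕ (Fin r × Fin (d + 1))))

section

variable {d K r m m' : ℕ}

abbrev it : Ix d K r := none
abbrev iz : Ix d K r := some none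
abbrev iw (i : Fin d) (k : Fin K) : Ix d K r := some (some (Sum.inl (i, k)))
abbrev iy (j : Fin r) (i : Fin (d + 1)) : Ix d K r := some (some (Sum.inr (j, i)))

/-- the polynomial `∑ c_j t^j` -/
noncomputable def pl (c : Fin (m + 1) → ℤ) : MvPolynomial (Ix d K r) ℤ :=
  ∑ j, C (c j) * X it ^ (j : ℕ)

noncomputable def yc (a : Fin (m + 1) → ℤ) (b : Fin (m' + 1) → ℤ) (j : Fin r) (i : Fin (d + 1)) :
    MvPolynomial (Ix d K r) ℤ :=
  Fin.lastCases (motive := fun _ => MvPolynomial (Ix d K r) ℤ)
    (-(pl a * X (iy j 0) + ∑ i' : Fin d, (∑ k : Fin K, X (iw i' k) * X it ^ (k : ℕ)) *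
      X (iy j i'.succ)))
    (fun i' => pl b * X (iy j i'.succ)) i

/-- the self-map -/
noncomputable def F (a : Fin (m + 1) → ℤ) (b : Fin (m' + 1) → ℤ) :
    Ix d K r → MvPolynomial (Ix d K r) ℤ
  | none => X it + 1
  | some none => pl b * X iz
  | some (some (Sum.inl e)) => X (some (some (Sum.inl e)))
  | some (some (Sum.inr e)) => yc a b e.1 e.2

end

section deriv

variable {ι k : Type} [Fintype ι] [CommRing k] (x v : ι → k)

/-- directional derivative -/
noncomputable def Dv (g : MvPolynomial ι k) : k := ∑ j, eval x (pderiv j g) * v j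

theorem Dv_add (g h : MvPolynomial ι k) : Dv x v (g + h) = Dv x v g + Dv x v h := by
  simp only [Dv, map_add, add_mul, Finset.sum_add_distrib]

theorem Dv_neg (g : MvPolynomial ι k) : Dv x v (-g) = -Dv x v g := by
  simp only [Dv, map_neg, neg_mul, Finset.sum_neg_distrib]

theorem Dv_mul (g h : MvPolynomial ι k) :
    Dv x v (g * h) = eval x g * Dv x v h + eval x h * Dv x v g := by
  simp only [Dv]
  rw [Finset.mul_sum, Finset.mul_sum, ← Finset.sum_add_distrib]
  refine Finset.sum_congr rfl fun j _ => ?_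
  rw [pderiv_mul, map_add, map_mul, map_mul]
  ring

theorem Dv_C (c : k) : Dv x v (C c) = 0 := by
  simp [Dv]

theorem Dv_one : Dv x v 1 = 0 := by
  rw [← C_1]
  exact Dv_C x v 1

theorem Dv_X [DecidableEq ι] (i : ι) : Dv x v (X i) = v i := by
  simp only [Dv, pderiv_X]
  rw [Finset.sum_eq_single i]
  · simp
  · intro j _ hj
    rw [Pi.single_eq_of_ne (Ne.symm hj)]
    simp
  · simp

theorem Dv_sum {J : Type} (s : Finset J) (g : J → MvPolynomial ι k) :
    Dv x v (∑ j ∈ s, g j) = ∑ j ∈ s, Dv x v (g j) := by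
  classical
  induction s using Finset.induction_on with
  | empty =>
    rw [Finset.sum_empty, Finset.sum_empty, ← C_0]
    exact Dv_C x v 0
  | insert j s hj ih => rw [Finset.sum_insert hj, Finset.sum_insert hj, Dv_add, ih]

theorem Dv_pow_zero {g : MvPolynomial ι k} (hg : Dv x v g = 0) (n : ℕ) : Dv x v (g ^ n) = 0 := by
  induction n with
  | zero => rw [pow_zero]; exact Dv_one x v
  | succ n ih => rw [pow_succ, Dv_mul, ih, hg, mul_zero, mul_zero, add_zero]

theorem jac_mulVec (G : ι → MvPolynomial ι k) (i : ι) :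
    (jac G x).mulVec v i = Dv x v (G i) := rfl

end deriv

theorem det_ne {d K r m m' : ℕ} {k : Type} [Field k] (a : Fin (m + 1) → ℤ) (b : Fin (m' + 1) → ℤ)
    (x : Ix d K r → k) (ha : eval x (map (Int.castRingHom k) (pl a)) ≠ 0)
    (hb : eval x (map (Int.castRingHom k) (pl b)) ≠ 0) :
    (jac (overR k (F a b)) x).det ≠ 0 := by
  classical
  intro h
  obtain ⟨v, hv0, hv⟩ := Matrix.exists_mulVec_eq_zero_iff.2 h
  apply hv0
  have e : ∀ i, Dv x v (overR k (F a b) i) = 0 := fun i => congrFun hv i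
  have ht : v it = 0 := by
    have h1 := e it
    simp only [overR, F, map_add, map_X, map_one, Dv_add, Dv_X, Dv_one, add_zero] at h1
    exact h1
  have hpl : ∀ (n : ℕ) (c : Fin (n + 1) → ℤ),
      Dv x v (map (Int.castRingHom k) (pl c)) = 0 := by
    intro n c
    simp only [pl, map_sum, map_mul, map_C, map_pow, map_X]
    rw [Dv_sum]
    refine Finset.sum_eq_zero fun j _ => ?_
    rw [Dv_mul, Dv_C, Dv_pow_zero x v (by rw [Dv_X, ht]), mul_zero, mul_zero, add_zero]
  have hz : v iz = 0 := by
    have h1 := e iz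
    simp only [overR, F, map_mul, map_X, Dv_mul, Dv_X, hpl, mul_zero, add_zero] at h1
    exact (mul_eq_zero.1 h1).resolve_left hb
  have hw : ∀ q, v (some (some (Sum.inl q))) = 0 := by
    intro q
    have h1 := e (some (some (Sum.inl q)))
    simp only [overR, F, map_X, Dv_X] at h1
    exact h1
  have hs : ∀ (j : Fin r) (i : Fin d), v (iy j i.succ) = 0 := by
    intro j i
    have h1 := e (iy j i.castSucc)
    simp only [overR, F, yc, Fin.lastCases_castSucc, map_mul, map_X, Dv_mul, Dv_X, hpl,
      mul_zero, add_zero] at h1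
    exact (mul_eq_zero.1 h1).resolve_left hb
  have h0 : ∀ (j : Fin r), v (iy j 0) = 0 := by
    intro j
    have h1 := e (iy j (Fin.last d))
    simp only [overR, F, yc, Fin.lastCases_last, map_neg, map_add, map_mul, map_X, Dv_neg,
      Dv_add, Dv_mul, Dv_X, hpl, mul_zero, add_zero, map_sum, map_pow, Dv_sum, hs] at h1
    have h2 : ∀ i' : Fin d, ∀ k' : Fin K, Dv x v (X (iw i' k') * X it ^ (k' : ℕ)) = 0 := by
      intro i' k'
      rw [Dv_mul, Dv_X, Dv_pow_zero x v (by rw [Dv_X, ht]), hw, mul_zero, mul_zero, add_zero]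
    simp only [Dv_X, hw, ht, Dv_pow_zero x v (by rw [Dv_X, ht] : Dv x v (X it) = 0), mul_zero,
      add_zero, Finset.sum_const_zero, neg_eq_zero] at h1
    exact (mul_eq_zero.1 h1).resolve_left ha
  funext i
  rcases i with _ | _ | q | ⟨j, i⟩
  · exact ht
  · exact hz
  · exact hw q
  · refine Fin.cases ?_ ?_ i
    · exact h0 j
    · exact fun i' => hs j i'

end Pool.Agent.TH838.PR
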