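import Pool.Agent.TH838.PR.Core
import Pool.Agent.TH838.DS.QSieve

set_option autoImplicit false

/-!
The sieve for pairs of polynomials without zeros modulo some prime.
-/

namespace Pool.Agent.TH838.PR

open Finset Pool.Agent.TH838.DS Pool.Agent.H684R3.Smo

section

variable {p : ℕ} [Fact p.Prime]

theorem uu_ne {m : ℕ} (x : ZMod p) : (uu (some x) : (Fin (m + 1) → ZMod p) →ₗ[ZMod p] ZMod p) ≠ 0 := by
  intro h
  have h1 := congrArg (fun l => l (Pi.single 0 1)) h
  simp only [uu, LinearMap.sum_apply, LinearMap.smul_apply, LinearMap.proj_apply, smul_eq_mul,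
    LinearMap.zero_apply] at h1
  rw [Finset.sum_eq_single 0] at h1
  · simp at h1
  · intro b _ hb
    rw [Pi.single_eq_of_ne hb, mul_zero]
  · simp

theorem count_noroot {m : ℕ} (hm : m ≠ 1) (hp : 4 ≤ p) :
    (1 / (4 * (m + 1)) : ℝ) * (p : ℝ) ^ (m + 1) ≤
      (Nat.card {c : Fin (m + 1) → ZMod p // ∀ x : ZMod p, uu (some x) c ≠ 0} : ℝ) := by
  classical
  have hp4 : (4 : ℝ) ≤ p := by exact_mod_cast hp
  have hp0 : (0 : ℝ) < p := by linarith
  rcases Nat.lt_or_ge m 2 with h2 | h2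
  · obtain rfl : m = 0 := by omega
    have h1 := count_lin (A := Fin (0 + 1) → ZMod p) (Ω := Unit) (fun _ => uu (some 0))
      (fun _ => uu_ne 0) ∅ 1 le_rfl (fun a _ => by
        calc Nat.card {x : Unit // uu (some 0) a = 0} ≤ Nat.card Unit :=
              Nat.card_le_card_of_injective (fun x => x.1) Subtype.val_injective
          _ ≤ 1 := by simp) 1 (by simp) le_rfl
    rw [card_A] at h1
    have h3 : Nat.card {a : Fin (0 + 1) → ZMod p // ∀ _ : Unit, uu (some (0 : ZMod p)) a ≠ 0} =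
        Nat.card {c : Fin (0 + 1) → ZMod p // ∀ x : ZMod p, uu (some x) c ≠ 0} := by
      apply Nat.card_congr
      apply Equiv.subtypeEquivRight
      intro c
      have e : ∀ x : ZMod p, uu (some x) c = c 0 := by
        intro x
        simp [uu]
      simp only [e]
      exact ⟨fun h _ => h (), fun h _ => h 0⟩
    rw [h3] at h1
    have e1 : (p : ℝ) ^ (0 + 1) / p = 1 := by
      rw [zero_add, pow_one]
      field_simp
    rw [e1] at h1
    simp only [zero_add, pow_one, CharP.cast_eq_zero] at h1 ⊢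
    linarith
  · have h1 := count_lin (A := Fin (m + 1) → ZMod p) (Ω := ZMod p) (fun x => uu (some x))
      (fun x => uu_ne x) {0} m (by omega) (fun a ha => by
        have ha0 : a ≠ 0 := ha
        have hpo : po a ≠ 0 := by
          intro h
          apply ha0
          apply po_injective
          rw [h]
          simp [po]
        have h3 : Nat.card {x : ZMod p // uu (some x) a = 0} = ((po a).roots.toFinset).card := by
          rw [← Nat.card_eq_finsetCard]
          apply Nat.card_congr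
          apply Equiv.subtypeEquivRight
          intro x
          rw [uu_some, Multiset.mem_toFinset, Polynomial.mem_roots hpo, Polynomial.IsRoot.def]
        rw [h3]
        exact (Multiset.toFinset_card_le _).trans ((Polynomial.card_roots' _).trans
          (natDegree_po a))) p (by rw [ZMod.card]) (by linarith)
    refine le_trans ?_ h1
    rw [card_A]
    obtain ⟨k, rfl⟩ : ∃ k, m = k + 2 := ⟨m - 2, by omega⟩
    have e1 : (p : ℝ) * ((p : ℝ) ^ (k + 2 + 1) / p) = (p : ℝ) ^ (k + 2 + 1) := by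
      field_simp
    have e2 : (p : ℝ) ^ (k + 2 + 1) / (p : ℝ) ^ 2 = (p : ℝ) ^ (k + 1) := by
      rw [div_eq_iff (by positivity)]
      ring
    have e3 : (Nat.card (({0} : Set (Fin (k + 2 + 1) → ZMod p))) : ℝ) = 1 := by
      simp
    rw [e1, e2, e3, sub_self, zero_add]
    push_cast
    have h4 : (1 : ℝ) ≤ (p : ℝ) ^ k := one_le_pow₀ (by linarith)
    have h5 : (p : ℝ) ^ (k + 1) = (p : ℝ) ^ k * p := pow_succ _ _
    have h6 : (p : ℝ) ^ (k + 2 + 1) = (p : ℝ) ^ k * p * (p * p) := by ring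
    have h7 : (p : ℝ) ^ k * p * 3 / 4 ≤ (p : ℝ) ^ (k + 1) - 1 := by
      rw [h5]
      nlinarith
    have h8 : (p : ℝ) * p * 3 / 4 ≤ p * (p - 1) := by nlinarith
    rw [le_div_iff₀ (by positivity), h6]
    have h9 : (p : ℝ) * p * 3 / 4 * ((p : ℝ) ^ k * p * 3 / 4) ≤
        p * (p - 1) * ((p : ℝ) ^ (k + 1) - 1) := by
      apply mul_le_mul h8 h7 (by positivity)
      nlinarith
    refine le_trans ?_ h9
    have h10 : (1 / (4 * ((k : ℝ) + 2 + 1))) * ((k : ℝ) + 2) ≤ 1 / 4 := by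
      rw [one_div_mul_eq_div, div_le_div_iff₀ (by positivity) (by norm_num)]
      linarith
    have h11 : 0 ≤ (p : ℝ) ^ k * p * (p * p) := by positivity
    calc 1 / (4 * ((k : ℝ) + 2 + 1)) * ((p : ℝ) ^ k * p * (p * p)) * ((k : ℝ) + 2) =
        (1 / (4 * ((k : ℝ) + 2 + 1))) * ((k : ℝ) + 2) * ((p : ℝ) ^ k * p * (p * p)) := by ring
      _ ≤ 1 / 4 * ((p : ℝ) ^ k * p * (p * p)) := mul_le_mul_of_nonneg_right h10 h11
      _ ≤ _ := by nlinarith

end

theorem uu_cast {p : ℕ} [Fact p.Prime] {m : ℕ} (c : Fin (m + 1) → ℤ) (x : ZMod p) :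
    uu (some x) (fun i => (c i : ZMod p)) = vl c x := by
  rw [uu_some]
  simp only [po, vl, Polynomial.eval_finset_sum, Polynomial.eval_mul, Polynomial.eval_C,
    Polynomial.eval_pow, Polynomial.eval_X]

/-- Good pairs of polynomials: no zero modulo some prime. -/
def GoodPair {m m' : ℕ} (v : Fin (m + 1) ⊕ Fin (m' + 1) → ℤ) : Prop :=
  ∃ (p : ℕ) (_ : Fact p.Prime), (∀ x : ZMod p, vl (fun i => v (Sum.inl i)) x ≠ 0) ∧
    ∀ x : ZMod p, vl (fun i => v (Sum.inr i)) x ≠ 0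

theorem sieve {m m' : ℕ} (hm : m ≠ 1) (hm' : m' ≠ 1) :
    ∃ δ : ℝ, 0 < δ ∧ ∃ H₀ : ℕ, ∀ H : ℕ, H₀ ≤ H → ∀ b : Fin (m + 1) ⊕ Fin (m' + 1) → ℤ,
      (Nat.card {v : Fin (m + 1) ⊕ Fin (m' + 1) → ℤ // (∀ i, |v i - b i| ≤ (H : ℤ)) ∧
        ¬ GoodPair v} : ℝ) ≤ (H : ℝ) ^ (-δ) * (2 * H + 1 : ℝ) ^ (m + m' + 2) := by
  classical
  have hcard : Fintype.card (Fin (m + 1) ⊕ Fin (m' + 1)) = m + m' + 2 := by
    rw [Fintype.card_sum, Fintype.card_fin, Fintype.card_fin]
    ring
  let P : ℕ → Prop := fun p => p.Prime ∧ 4 ≤ p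
  let G : ∀ p : ℕ, Set ((Fin (m + 1) ⊕ Fin (m' + 1)) → ZMod p) := fun p =>
    {w | ∃ _ : Fact p.Prime, (∀ x : ZMod p, uu (some x) (fun i => w (Sum.inl i)) ≠ 0) ∧
      ∀ x : ZMod p, uu (some x) (fun i => w (Sum.inr i)) ≠ 0}
  set κ : ℝ := (1 / (4 * (m + 1))) * (1 / (4 * (m' + 1))) with hκ
  have hκ0 : 0 < κ := by positivity
  have hG : ∀ p, P p → p.Prime ∧ κ * (p : ℝ) ^ Fintype.card (Fin (m + 1) ⊕ Fin (m' + 1)) ≤ (Nat.card (G p) : ℝ) := by
    intro p hp
    haveI hpp : Fact p.Prime := ⟨hp.1⟩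
    refine ⟨hp.1, ?_⟩
    have h1 := count_noroot (p := p) hm hp.2
    have h2 := count_noroot (p := p) hm' hp.2
    have e : (G p) ≃ {c : Fin (m + 1) → ZMod p // ∀ x : ZMod p, uu (some x) c ≠ 0} ×
        {c : Fin (m' + 1) → ZMod p // ∀ x : ZMod p, uu (some x) c ≠ 0} :=
      { toFun := fun w => (⟨fun i => w.1 (Sum.inl i), w.2.choose_spec.1⟩,
          ⟨fun i => w.1 (Sum.inr i), w.2.choose_spec.2⟩)
        invFun := fun c => ⟨Sum.elim c.1.1 c.2.1, hpp, c.1.2, c.2.2⟩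
        left_inv := fun w => by
          apply Subtype.ext
          funext i
          rcases i with i | i <;> rfl
        right_inv := fun c => rfl }
    rw [Nat.card_congr e, Nat.card_prod, hcard]
    push_cast
    calc κ * (p : ℝ) ^ (m + m' + 2) = ((1 / (4 * (m + 1)) : ℝ) * (p : ℝ) ^ (m + 1)) *
          ((1 / (4 * (m' + 1)) : ℝ) * (p : ℝ) ^ (m' + 1)) := by
          rw [hκ]
          ring
      _ ≤ _ := mul_le_mul h1 h2 (by positivity) (by positivity)
  obtain ⟨δ, hδ, H₀, hH₀⟩ := (t5 (t4 (t3 t1 t2))) (Fin (m + 1) ⊕ Fin (m' + 1)) P G κ (1 / 2) 4 hκ0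
    (by norm_num) (by norm_num) (by norm_num) hG (t9 (1 / 2) 4 (by norm_num))
  refine ⟨δ, hδ, H₀, fun H hH b => ?_⟩
  rw [mul_comm, ← hcard]
  refine le_trans ?_ (hH₀ H hH b)
  have hfin : Finite {v : (Fin (m + 1) ⊕ Fin (m' + 1)) → ℤ // v ∈ bx b H ∧ ∀ p, P p →
      (p : ℝ) ≤ Real.log H ^ (4 : ℝ) → (fun i => (v i : ZMod p)) ∉ G p} :=
    Set.Finite.subset (Finset.finite_toSet (bx b H)) fun v hv => hv.1
  have hle := Nat.card_le_card_of_injective
    (fun v : {v : (Fin (m + 1) ⊕ Fin (m' + 1)) → ℤ // (∀ i, |v i - b i| ≤ (H : ℤ)) ∧ ¬ GoodPair v} =>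
      (⟨v.1, by
        simp only [bx, Fintype.mem_piFinset, Finset.mem_Icc]
        intro i
        have := abs_le.1 (v.2.1 i)
        constructor <;> linarith [this.1, this.2], fun p hp _ h => v.2.2 (by
          obtain ⟨hpp, h1, h2⟩ := h
          refine ⟨p, hpp, fun x => ?_, fun x => ?_⟩
          · have h3 := h1 x
            rw [uu_cast] at h3
            exact h3
          · have h3 := h2 x
            rw [uu_cast] at h3
            exact h3)⟩ :
        {v : (Fin (m + 1) ⊕ Fin (m' + 1)) → ℤ // v ∈ bx b H ∧ ∀ p, P p →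
          (p : ℝ) ≤ Real.log H ^ (4 : ℝ) → (fun i => (v i : ZMod p)) ∉ G p}))
    (fun v w hvw => Subtype.ext (congrArg (fun z => z.1) hvw))
  exact_mod_cast hle

end Pool.Agent.TH838.PR
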